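import Pool.Agent.V7H32.UB.Stack
import Pool.Agent.V7H32.UB.Planar7
import Pool.Agent.V7H32.UB.Place
import Pool.Agent.R42.UB.Final

/-!
# MP_ff3568_co: planar graphs of girth at least seven

Every planar graph of girth at least seven has unit bar visibility number at most
the ceiling of (maximum degree + 1)/3, so the upper bound of this number plus one is
never attained.
-/

set_option autoImplicit false

namespace Pool.Agent.Results.MP_ff3568_co.NotAttainedH32

open MP_482ee1 Pool.Agent.V7H32.UB Pool.Agent.V7H32.UB.Stack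

/-- The sparse version: all nonempty vertex sets `W` span fewer than `7/5 |W|` edges. -/
theorem sparse (V : Type) [Fintype V] (G : SimpleGraph V) [DecidableRel G.Adj]
    (hs : ∀ W : Finset V, W.Nonempty → 5 * eIn G W < 7 * W.card) :
    HasRep G ⌈((G.maxDegree : ℚ) + 1) / 3⌉₊ := by
  classical
  have hdg : ∀ v, dg G v ≤ G.maxDegree := by
    intro v
    refine le_trans (le_of_eq ?_) (G.degree_le_maxDegree v)
    unfold dg
    rw [← SimpleGraph.card_neighborFinset_eq_degree]
    congr 1
    ext w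
    simp
  rw [ceil3]
  rcases le_or_gt 3 G.maxDegree with h3 | h3
  · refine hasRep_of_sparse G (G.maxDegree / 3 + 1) (by omega) hs ?_
    intro v
    have := hdg v
    omega
  · have h0 : G.maxDegree / 3 + 1 = 1 := by omega
    rw [h0]
    exact hasRep_one G (fun v => (hdg v).trans (by omega))

/-- Every planar graph `G` of girth at least `7` has unit bar visibility number at most
`⌈(Δ(G)+1)/3⌉`, and so there is no planar graph of girth at least `7` with
`ub G = ⌈(Δ(G)+1)/3⌉ + 1`. -/
theorem result :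
    (∀ (V : Type) [Fintype V] (G : SimpleGraph V) [DecidableRel G.Adj],
      Planar G → 7 ≤ G.egirth →
        HasRep G ⌈((G.maxDegree : ℚ) + 1) / 3⌉₊ ∧
        ub G ≤ ⌈((G.maxDegree : ℚ) + 1) / 3⌉₊) ∧
    ¬ ∃ (V : Type) (_ : Fintype V) (G : SimpleGraph V) (_ : DecidableRel G.Adj),
      Planar G ∧ 7 ≤ G.egirth ∧ ub G = ⌈((G.maxDegree : ℚ) + 1) / 3⌉₊ + 1 := by
  have main : ∀ (V : Type) [Fintype V] (G : SimpleGraph V) [DecidableRel G.Adj],
      Planar G → 7 ≤ G.egirth →
        HasRep G ⌈((G.maxDegree : ℚ) + 1) / 3⌉₊ ∧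
        ub G ≤ ⌈((G.maxDegree : ℚ) + 1) / 3⌉₊ := by
    intro V _ G _ hp hg
    have h := sparse V G (planar7 G hp hg)
    refine ⟨h, Nat.sInf_le ⟨?_, h⟩⟩
    rw [ceil3]
    omega
  refine ⟨main, ?_⟩
  rintro ⟨V, i1, G, i2, hp, hg, h⟩
  have := (main V G hp hg).2
  omega

end Pool.Agent.Results.MP_ff3568_co.NotAttainedH32
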